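import Pool.Agent.helper88.RQ2.Spec

/-!
# Project RQ (MP_bb0bb6_co, Q2), row KET: the pieces for `m ≥ 3` attain the linear bound
-/

set_option autoImplicit false

open Set Matroid RadonMin

namespace RadonQ2

lemma KET_line1 (m : ℕ) : ((m.choose 3 : ℕ) : ℤ) = TT m (m : ℤ) 2 := by
  unfold TT
  have h1 := six_mul_choose_three m
  have h2 := two_mul_choose_two m
  have h3 := choose_three_succ m
  have h4 : 2 * (m.choose 2 : ℤ) * ((m : ℤ) - 2) = m * (m - 1) * (m - 2) := by rw [h2]
  rw [h3]
  linarith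

lemma KET_line2 (m : ℕ) : (((m + 1).choose 3 : ℕ) : ℤ) = TT m ((m : ℤ) + 1) 2 := by
  unfold TT
  have h1 := choose_two_mul m
  linarith

theorem KET_proof (hEB : EB_stmt) (hGCO : GCO_stmt) (hV1 : V1_stmt) (hVX : VX_stmt) : KET_stmt := by
  intro V _ _ _ m B hm hB
  rcases hB with ⟨hc, hcol⟩ | ⟨rfl, hcr⟩
  · have hr : ra B = 2 := by
      refine le_antisymm ((hGCO V B).2 hcol) ((hEB V).2.2.2.2.2.2 B ?_)
      rcases hc with h | h <;> omega
    rw [hV1 V B hcol, hr]
    rcases hc with h | h
    · rw [h]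
      exact_mod_cast KET_line1 m
    · rw [h]
      have h1 := KET_line2 m
      push_cast
      exact h1
  · obtain ⟨h1, h2⟩ := (hVX V B).1 hcr
    have hcard : B.card = 5 := by
      obtain ⟨p, a, b, c, d, h, -⟩ := hcr
      exact h
    have h3 := affMat_good B (B : Set V) (by simp) (by rw [← h1]; rfl)
    have h4 : (affMat B) ↾ (B : Set V) = affMat B := by
      rw [← affMat_E B]
      exact restrict_ground_eq_self _
    rw [h4, ncard_coe_finset, hcard] at h3
    have h5 : hh 5 = 3 := by decide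
    rw [h5] at h3
    have h6 : ci B = 3 := le_antisymm h2 h3
    rw [h6, h1, hcard]
    decide

end RadonQ2
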